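import Pool.Agent.NH60.BC.Fin

/-!
# MP_9d0a1e_co: the maximum over the bipartite planar graphs is `3`

The largest fully active cop number of a connected bipartite planar graph (with at least two
vertices) is exactly `3`. More generally, three fully active cops win on every image of a finite
connected bipartite graph without a `K₃,₃` minor under a locally surjective homomorphism.

The starting files have `3 ≤ c* ≤ 4` for all planar graphs. The dodecahedron, which gives the lower
bound there, is not bipartite.

Proof. In a bipartite graph a cop whose colour is that of the robber when he is to move can hold a
whole shortest path of the territory, where two cops are used in general; any other cop can hold it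
if no edge of the territory leads to it in ascending direction. The three cops keep this
distribution of roles: the cop of the right colour is the only one that moves to new paths, and the two
others hold paths without ascending entries. Of three cops, two on one colour class and one on the other,
there is always a cop of the right colour.

For the lower bound every edge of the dodecahedron is subdivided once. When the robber is at a vertex
of degree three, each of two cops spoils at most one of the three directions.
-/

set_option autoImplicit false

namespace Pool.Agent.Results.MP_9d0a1e_co.BipartiteExactlyThree

open Pool.Agent.Y649.FA Pool.Agent.Helper805.CHS

/-- **The maximum of the fully active cop number over the connected bipartite planar graphs with at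
least two vertices is `3`.** Three fully active cops win on every graph `G` with at least two
vertices for which there is a finite connected bipartite graph `H` without a `K₃,₃` minor and a surjective
homomorphism `f` from `H` to `G` which maps the neighbours of every `x` onto the neighbours of
`f x` (for instance `G = H`, or a covering). -/
theorem result :
    IsGreatest {k | ∃ (n : ℕ) (G : SimpleGraph (Fin n)), 2 ≤ n ∧ G.Connected ∧ Planar G ∧
      G.Colorable 2 ∧ copNumber G = k} 3 ∧
    ∀ (U V : Type) [Finite U] [Nontrivial V] (H : SimpleGraph U) (G : SimpleGraph V) (f : H →g G),
      H.Connected → H.Colorable 2 → ¬ K33Model H → Function.Surjective f →
      (∀ x y, G.Adj (f x) y → ∃ z, H.Adj x z ∧ f z = y) → CopsWin G 3 :=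
  ⟨Pool.Agent.NH60.BC.greatest, fun _ _ _ _ _ _ f hc h2 h33 hs hl =>
    Pool.Agent.NH60.BC.copsWin_cover hc h33 h2 f hs hl⟩

end Pool.Agent.Results.MP_9d0a1e_co.BipartiteExactlyThree
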